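import Mathlib
import Pool.Agent.W795.DD.Stm
import Pool.Agent.W785.DF.Alg

/-!
Reconstruction of the velocity and the pressure from the Fourier coefficients.
-/

set_option autoImplicit false
set_option maxHeartbeats 400000

open MeasureTheory Set
open scoped ContDiff InnerProductSpace ENNReal

namespace Pool.Agent.W978.DD.Recon

open H459R3.NS (V K3 Per pd fr ee cube norm_ee ee_neg ee_zero)
open Pool.Agent.W785.DF (E3 dk kv cj Pk Nl Fld Fr TP tp frv Herm IsAdmissible)
open Pool.Agent.W795.DD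

/-- rapidly decreasing families -/
def RDk (γ : K3 → ℂ) : Prop := ∀ m : ℕ, ∃ C : ℝ, ∀ k, (1 + W785.DF.sq k) ^ m * ‖γ k‖ ≤ C

lemma RD_at {c : ℝ → K3 → ℂ} (h : RD c) {t : ℝ} (ht : 0 ≤ t) : RDk (c t) := by
  intro m
  obtain ⟨C, hC⟩ := h.2 m t
  exact ⟨C, fun k => hC t ⟨ht, le_rfl⟩ k⟩

lemma TC_RD {n : ℕ} {c : ℝ → K3 → ℂ} (h : TC n c) : RD c := by
  cases n with
  | zero => exact h
  | succ n => exact h.1

lemma summ (hsyn : S_syn) {γ : K3 → ℂ} (h : RDk γ) (y : V) : Summable fun k => γ k * ee k y :=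
  (hsyn.2.2 γ h).1 y

lemma summ0 (hsyn : S_syn) {γ : K3 → ℂ} (h : RDk γ) : Summable γ := by
  have h1 := (summ hsyn h 0)
  have h2 : ∀ k : K3, ee k 0 = 1 := by
    intro k
    rw [ee]
    simp [H459R3.NS.ph]
  simpa [h2] using h1

lemma bdd {γ : K3 → ℂ} (h : RDk γ) : ∃ C : ℝ, 0 ≤ C ∧ ∀ k, ‖γ k‖ ≤ C := by
  obtain ⟨C, hC⟩ := h 0
  have h1 : ∀ k, ‖γ k‖ ≤ C := fun k => by simpa using hC k
  exact ⟨C, (norm_nonneg _).trans (h1 0), h1⟩

lemma summ_conv (hsyn : S_syn) {γ δ : K3 → ℂ} (h : RDk γ) (h' : RDk δ) (k : K3) :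
    Summable fun l => γ l * δ (k - l) := by
  obtain ⟨C, hC0, hC⟩ := bdd h'
  refine Summable.of_norm_bounded (g := fun l => ‖γ l‖ * C) ((summ0 hsyn h).norm.mul_right C) ?_
  intro l
  rw [norm_mul]
  exact mul_le_mul_of_nonneg_left (hC _) (norm_nonneg _)

lemma FS_add (hsyn : S_syn) {γ δ : K3 → ℂ} (h : RDk γ) (h' : RDk δ) (y : V) :
    FS (fun k => γ k + δ k) y = FS γ y + FS δ y := by
  unfold FS
  rw [← (summ hsyn h y).tsum_add (summ hsyn h' y)]
  exact tsum_congr fun k => by ring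

lemma FS_mul_left (a : ℂ) (γ : K3 → ℂ) (y : V) :
    FS (fun k => a * γ k) y = a * FS γ y := by
  unfold FS
  rw [← tsum_mul_left]
  exact tsum_congr fun k => by ring

lemma RDk_add {γ δ : K3 → ℂ} (h : RDk γ) (h' : RDk δ) : RDk fun k => γ k + δ k := by
  intro m
  obtain ⟨C, hC⟩ := h m
  obtain ⟨C', hC'⟩ := h' m
  refine ⟨C + C', fun k => ?_⟩
  have h0 : (0 : ℝ) ≤ (1 + W785.DF.sq k) ^ m := by
    have := W785.DF.sq_nonneg' k; positivity
  calc (1 + W785.DF.sq k) ^ m * ‖γ k + δ k‖ ≤ (1 + W785.DF.sq k) ^ m * (‖γ k‖ + ‖δ k‖) := by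
        gcongr; exact norm_add_le _ _
    _ = (1 + W785.DF.sq k) ^ m * ‖γ k‖ + (1 + W785.DF.sq k) ^ m * ‖δ k‖ := by ring
    _ ≤ C + C' := add_le_add (hC k) (hC' k)

lemma RDk_mul {γ : K3 → ℂ} (h : RDk γ) {m : K3 → ℂ} {C : ℝ} {M : ℕ}
    (hm : ∀ k, ‖m k‖ ≤ C * (1 + W785.DF.sq k) ^ M) : RDk fun k => m k * γ k := by
  intro n
  obtain ⟨C', hC'⟩ := h (n + M)
  have hC0 : 0 ≤ C := by
    have h1 := (norm_nonneg _).trans (hm 0)
    have h2 := W785.DF.sq_nonneg' (0 : K3)
    by_contra hlt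
    push Not at hlt
    have h3 : (0 : ℝ) < (1 + W785.DF.sq 0) ^ M := by positivity
    nlinarith
  refine ⟨C * C', fun k => ?_⟩
  have h0 := W785.DF.sq_nonneg' k
  calc (1 + W785.DF.sq k) ^ n * ‖m k * γ k‖
      = ‖m k‖ * ((1 + W785.DF.sq k) ^ n * ‖γ k‖) := by rw [norm_mul]; ring
    _ ≤ (C * (1 + W785.DF.sq k) ^ M) * ((1 + W785.DF.sq k) ^ n * ‖γ k‖) := by
        gcongr; exact hm k
    _ = C * ((1 + W785.DF.sq k) ^ (n + M) * ‖γ k‖) := by rw [pow_add]; ring
    _ ≤ C * C' := by gcongr; exact hC' k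

/-- the multiplier of the derivative -/
noncomputable def mu (j : Fin 3) (k : K3) : ℂ := 2 * Real.pi * Complex.I * (k j : ℂ)

lemma norm_kj (j : Fin 3) (k : K3) : ‖(k j : ℂ)‖ ≤ 1 + W785.DF.sq k := by
  have h1 : ‖(k j : ℂ)‖ = |(k j : ℝ)| := Complex.norm_intCast _
  rw [h1]
  have h2 : (k j : ℝ) ^ 2 ≤ W785.DF.sq k :=
    Finset.single_le_sum (f := fun j => (k j : ℝ) ^ 2) (fun _ _ => sq_nonneg _)
      (Finset.mem_univ j)
  have h3 : |(k j : ℝ)| ≤ 1 + (k j : ℝ) ^ 2 := by
    rw [← sq_abs]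
    nlinarith [abs_nonneg (k j : ℝ), sq_nonneg (|(k j : ℝ)| - 1)]
  linarith

lemma norm_mu (j : Fin 3) (k : K3) : ‖mu j k‖ ≤ (2 * Real.pi) * (1 + W785.DF.sq k) ^ 1 := by
  unfold mu
  rw [norm_mul, norm_mul, norm_mul, Complex.norm_I, Complex.norm_real,
    Real.norm_of_nonneg Real.pi_pos.le, Complex.norm_ofNat, mul_one, pow_one]
  have := norm_kj j k
  have := Real.pi_pos
  gcongr

/-- the multiplier of the pressure -/
noncomputable def mp (j : Fin 3) (k : K3) : ℂ :=
  -((k j : ℂ) / (2 * Real.pi * Complex.I * (W785.DF.sq k : ℂ)))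

lemma norm_mp (j : Fin 3) (k : K3) : ‖mp j k‖ ≤ 1 * (1 + W785.DF.sq k) ^ 1 := by
  unfold mp
  have h0 := W785.DF.sq_nonneg' k
  rw [norm_neg, norm_div, one_mul, pow_one]
  by_cases hk : k = 0
  · subst hk
    simp [W785.DF.sq_zero']
  · have h1 := W785.DF.one_le_sq hk
    have h2 : 1 ≤ ‖(2 * Real.pi * Complex.I * (W785.DF.sq k : ℂ) : ℂ)‖ := by
      rw [norm_mul, norm_mul, norm_mul, Complex.norm_I, Complex.norm_real, Complex.norm_real,
        Real.norm_of_nonneg Real.pi_pos.le, Complex.norm_ofNat, mul_one,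
        Real.norm_of_nonneg h0]
      have := Real.pi_gt_three
      nlinarith
    calc ‖(k j : ℂ)‖ / ‖(2 * Real.pi * Complex.I * (W785.DF.sq k : ℂ) : ℂ)‖ ≤ ‖(k j : ℂ)‖ :=
          div_le_self (norm_nonneg _) h2
      _ ≤ _ := norm_kj j k

lemma norm_lam (ν : ℝ) (k : K3) :
    ‖-(lam ν k)‖ ≤ (4 * Real.pi ^ 2 * |ν|) * (1 + W785.DF.sq k) ^ 1 := by
  unfold lam
  have h0 := W785.DF.sq_nonneg' k
  rw [norm_neg, Complex.norm_real, Real.norm_eq_abs, abs_mul, abs_mul, abs_of_nonneg h0,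
    abs_of_nonneg (by positivity : (0 : ℝ) ≤ 4 * Real.pi ^ 2), pow_one]
  have : 0 ≤ |ν| := abs_nonneg ν
  have : 0 ≤ 4 * Real.pi ^ 2 * |ν| := by positivity
  nlinarith

/-- coefficients of the nonlinear term -/
noncomputable def NN (a : K3 → E3) (i : Fin 3) (k : K3) : ℂ :=
  ∑ j, ∑' l : K3, a l j * (mu j (k - l) * a (k - l) i)

/-- coefficients of the pressure -/
noncomputable def PP (a : K3 → E3) (k : K3) : ℂ := ∑ i, mp i k * NN a i k

/-- coefficients of the time derivative -/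
noncomputable def DT (ν : ℝ) (a : K3 → E3) (i : Fin 3) (k : K3) : ℂ :=
  -(lam ν k) * a k i + ((-1) * NN a i k + (-1) * (mu i k * PP a k))

lemma TC_sum3 (htc : S_tc) (n : ℕ) (f : Fin 3 → ℝ → K3 → ℂ) (h : ∀ j, TC n (f j)) :
    TC n fun t k => ∑ j, f j t k := by
  have h1 := htc.1 n _ _ (htc.1 n _ _ (h 0) (h 1)) (h 2)
  simpa only [Fin.sum_univ_three] using h1

lemma TC_neg (htc : S_tc) (n : ℕ) (f : ℝ → K3 → ℂ) (h : TC n f) :
    TC n fun t k => (-1) * f t k := by
  refine htc.2.1 n f (fun _ => -1) 1 0 (fun k => ?_) h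
  simp

section

variable {x : ℝ → K3 → E3}

lemma TC_conv (htc : S_tc) (hx : ∀ (i : Fin 3) (n : ℕ), TC n fun t k => x t k i) (n : ℕ)
    (i j : Fin 3) : TC n fun t k => ∑' l : K3, x t l j * (mu j (k - l) * x t (k - l) i) := by
  have h1 : TC n fun t k => mu j k * x t k i :=
    htc.2.1 n _ (mu j) (2 * Real.pi) 1 (norm_mu j) (hx i n)
  exact htc.2.2.1 n _ _ (hx j n) h1

lemma TC_NN (htc : S_tc) (hx : ∀ (i : Fin 3) (n : ℕ), TC n fun t k => x t k i) (n : ℕ)
    (i : Fin 3) : TC n fun t k => NN (x t) i k :=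
  TC_sum3 htc n (fun j t k => ∑' l : K3, x t l j * (mu j (k - l) * x t (k - l) i))
    fun j => TC_conv htc hx n i j

lemma TC_PP (htc : S_tc) (hx : ∀ (i : Fin 3) (n : ℕ), TC n fun t k => x t k i) (n : ℕ) :
    TC n fun t k => PP (x t) k :=
  TC_sum3 htc n (fun i t k => mp i k * NN (x t) i k)
    fun i => htc.2.1 n _ (mp i) 1 1 (norm_mp i) (TC_NN htc hx n i)

lemma TC_muPP (htc : S_tc) (hx : ∀ (i : Fin 3) (n : ℕ), TC n fun t k => x t k i) (n : ℕ)
    (i : Fin 3) : TC n fun t k => mu i k * PP (x t) k :=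
  htc.2.1 n _ (mu i) (2 * Real.pi) 1 (norm_mu i) (TC_PP htc hx n)

lemma TC_DT (htc : S_tc) (hx : ∀ (i : Fin 3) (n : ℕ), TC n fun t k => x t k i) (ν : ℝ) (n : ℕ)
    (i : Fin 3) : TC n fun t k => DT ν (x t) i k := by
  have h1 := htc.2.1 n _ (fun k => -(lam ν k)) (4 * Real.pi ^ 2 * |ν|) 1 (norm_lam ν) (hx i n)
  have h2 := TC_neg htc n _ (TC_NN htc hx n i)
  have h3 := TC_neg htc n _ (TC_muPP htc hx n i)
  exact htc.1 n _ _ h1 (htc.1 n _ _ h2 h3)

end

lemma norm_E3_le (v : E3) : ‖v‖ ≤ ∑ i, ‖v i‖ := by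
  rw [EuclideanSpace.norm_eq]
  refine Real.sqrt_le_iff.2 ⟨Finset.sum_nonneg fun _ _ => norm_nonneg _, ?_⟩
  rw [Fin.sum_univ_three, Fin.sum_univ_three]
  nlinarith [norm_nonneg (v 0), norm_nonneg (v 1), norm_nonneg (v 2),
    mul_nonneg (norm_nonneg (v 0)) (norm_nonneg (v 1)),
    mul_nonneg (norm_nonneg (v 0)) (norm_nonneg (v 2)),
    mul_nonneg (norm_nonneg (v 1)) (norm_nonneg (v 2))]

lemma NlI_apply (hsyn : S_syn) {a : K3 → E3} (ha : ∀ i, RDk fun k => a k i) (i : Fin 3)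
    (k : K3) : NlI a k i = NN a i k := by
  have hs : ∀ j, Summable fun l => a l j * (mu j (k - l) * a (k - l) i) := fun j =>
    summ_conv hsyn (ha j) (δ := fun k => mu j k * a k i) (RDk_mul (ha i) (norm_mu j)) k
  -- summability of the vector valued sum
  have hn : Summable fun l => ‖a l‖ := by
    have h1 : Summable fun l => ∑ j, ‖a l j‖ :=
      summable_sum fun j _ => (summ0 hsyn (ha j)).norm
    exact Summable.of_nonneg_of_le (fun _ => norm_nonneg _) (fun l => norm_E3_le _) h1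
  have hb : ∃ C : ℝ, 0 ≤ C ∧ ∀ m : K3, Real.sqrt (W785.DF.sq m) * ‖a m‖ ≤ C := by
    choose C hC using fun i => ha i 1
    have hC' : ∀ m : K3, Real.sqrt (W785.DF.sq m) * ‖a m‖ ≤ ∑ i, C i := by
      intro m
      have h0 := W785.DF.sq_nonneg' m
      have h1 : Real.sqrt (W785.DF.sq m) ≤ 1 + W785.DF.sq m := by
        rw [Real.sqrt_le_iff]
        exact ⟨by linarith, by nlinarith⟩
      calc Real.sqrt (W785.DF.sq m) * ‖a m‖ ≤ (1 + W785.DF.sq m) * ∑ i, ‖a m i‖ := by
            gcongr; exact norm_E3_le _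
        _ = ∑ i, (1 + W785.DF.sq m) ^ 1 * ‖a m i‖ := by rw [Finset.mul_sum, pow_one]
        _ ≤ ∑ i, C i := Finset.sum_le_sum fun i _ => hC i m
    exact ⟨_, (mul_nonneg (Real.sqrt_nonneg _) (norm_nonneg _)).trans (hC' 0), hC'⟩
  obtain ⟨C, hC0, hC⟩ := hb
  have hS : Summable fun l : K3 => (2 * Real.pi * Complex.I * dk (k - l) (a l)) • a (k - l) := by
    refine Summable.of_norm_bounded (g := fun l => (2 * Real.pi * C) * ‖a l‖)
      (hn.mul_left _) ?_
    intro l
    rw [norm_smul, norm_mul, norm_mul, norm_mul, Complex.norm_I, Complex.norm_real,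
      Real.norm_of_nonneg Real.pi_pos.le, Complex.norm_ofNat, mul_one]
    have h1 := W785.DF.norm_dk_le (k - l) (a l)
    have h2 := hC (k - l)
    have := Real.pi_pos
    calc 2 * Real.pi * ‖dk (k - l) (a l)‖ * ‖a (k - l)‖
        ≤ 2 * Real.pi * (Real.sqrt (W785.DF.sq (k - l)) * ‖a l‖) * ‖a (k - l)‖ := by gcongr
      _ = (2 * Real.pi) * (Real.sqrt (W785.DF.sq (k - l)) * ‖a (k - l)‖) * ‖a l‖ := by ring
      _ ≤ (2 * Real.pi) * C * ‖a l‖ := by gcongr
  have h1 : NlI a k i = ∑' l : K3, ((2 * Real.pi * Complex.I * dk (k - l) (a l)) • a (k - l)) i :=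
    (EuclideanSpace.proj (𝕜 := ℂ) i).map_tsum hS
  rw [h1, NN, ← Summable.tsum_finsetSum fun j _ => hs j]
  refine tsum_congr fun l => ?_
  rw [PiLp.smul_apply, smul_eq_mul, dk, Finset.mul_sum, Finset.sum_mul]
  refine Finset.sum_congr rfl fun j _ => ?_
  unfold mu
  simp only [Pi.sub_apply]
  ring

lemma Pk_apply (hsyn : S_syn) (ν : ℝ) {a : K3 → E3} (ha : ∀ i, RDk fun k => a k i) (i : Fin 3)
    (k : K3) : (-(lam ν k • a k) - Pk k (NlI a k)) i = DT ν a i k := by
  have h1 : (-(lam ν k • a k) - Pk k (NlI a k)) i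
      = -(lam ν k * a k i) - (NlI a k i - (dk k (NlI a k) / (W785.DF.sq k : ℂ)) * (k i : ℂ)) := by
    simp [Pk, kv]
  have h2 : dk k (NlI a k) = ∑ j, (k j : ℂ) * NN a j k := by
    unfold dk
    exact Finset.sum_congr rfl fun j _ => by rw [NlI_apply hsyn ha]
  rw [h1, NlI_apply hsyn ha, h2, DT, PP, mu]
  have h3 : 2 * Real.pi * Complex.I * (k i : ℂ) * ∑ j, mp j k * NN a j k
      = -((∑ j, (k j : ℂ) * NN a j k) / (W785.DF.sq k : ℂ) * (k i : ℂ)) := by
    rw [Finset.mul_sum, Finset.sum_div, Finset.sum_mul, ← Finset.sum_neg_distrib]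
    refine Finset.sum_congr rfl fun j _ => ?_
    unfold mp
    by_cases hk : k = 0
    · subst hk; simp
    · have h4 : (W785.DF.sq k : ℂ) ≠ 0 := by exact_mod_cast (W785.DF.sq_pos' hk).ne'
      have h5 : (Real.pi : ℂ) ≠ 0 := by exact_mod_cast Real.pi_ne_zero
      have h6 := Complex.I_ne_zero
      field_simp
  rw [h3]
  ring

lemma FS_symm {γ : K3 → ℂ} (h : ∀ k, γ (-k) = star (γ k)) (y : V) : (FS γ y).im = 0 := by
  have h1 : star (FS γ y) = FS γ y := by
    unfold FS
    rw [tsum_star, ← (Equiv.neg K3).tsum_eq (fun k => γ k * ee k y)]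
    refine tsum_congr fun k => ?_
    rw [Equiv.neg_apply, h, ee_neg, star_mul']
    rfl
  exact Complex.conj_eq_iff_im.1 h1

lemma pd_re {F : V → ℂ} (hF : ContDiff ℝ ∞ F) (j : Fin 3) (y : V) :
    pd j (fun z => (F z).re) y = (pd j F y).re := by
  unfold pd
  have h1 : HasFDerivAt F (fderiv ℝ F y) y :=
    (hF.differentiable (by simp)).differentiableAt.hasFDerivAt
  have h2 : HasFDerivAt (fun z => (F z).re) (Complex.reCLM.comp (fderiv ℝ F y)) y :=
    Complex.reCLM.hasFDerivAt.comp y h1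
  rw [h2.fderiv]
  rfl

lemma pd_FS (hsyn : S_syn) {γ : K3 → ℂ} (h : RDk γ) (j : Fin 3) (y : V) :
    pd j (fun z => (FS γ z).re) y = (FS (fun k => mu j k * γ k) y).re := by
  rw [pd_re (hsyn.2.2 γ h).2.1, (hsyn.2.2 γ h).2.2.2.1]
  rfl

lemma FS_sum3 (hsyn : S_syn) (f : Fin 3 → K3 → ℂ) (h : ∀ j, RDk (f j)) (y : V) :
    FS (fun k => ∑ j, f j k) y = ∑ j, FS (f j) y := by
  unfold FS
  rw [← Summable.tsum_finsetSum fun j _ => summ hsyn (h j) y]
  exact tsum_congr fun k => by rw [Finset.sum_mul]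

theorem proof (htc : S_tc) (hreg : S_reg) (hsyn : S_syn) : S_recon := by
  intro ν F b0 x hν hF hb hx
  have hT : ∀ (i : Fin 3) (n : ℕ), TC n fun t k => x t k i := hreg ν b0 x hν hx
  have hR : ∀ t, 0 ≤ t → ∀ i, RDk fun k => x t k i := fun t ht i => RD_at (TC_RD (hT i 0)) ht
  refine ⟨fun t y i => (FS (fun k => x t k i) y).re, fun t y => (FS (PP (x t)) y).re, ?_, ?_⟩
  · refine ⟨?_, ?_, ?_, ?_, ?_, ?_, ?_⟩
    · rw [contDiffOn_pi]
      intro i
      exact Complex.reCLM.contDiff.comp_contDiffOn (hsyn.1 (fun t k => x t k i) (hT i))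
    · exact Complex.reCLM.contDiff.comp_contDiffOn
        (hsyn.1 (fun t k => PP (x t) k) fun n => TC_PP htc hT n)
    · intro t ht j y
      funext i
      show (FS (fun k => x t k i) (y + Pi.single j 1)).re = (FS (fun k => x t k i) y).re
      rw [(hsyn.2.2 _ (hR t ht i)).2.2.1 j y]
    · intro t ht j y
      have h1 : RDk (PP (x t)) := RD_at (TC_RD (TC_PP htc hT 0)) ht
      show (FS (PP (x t)) (y + Pi.single j 1)).re = (FS (PP (x t)) y).re
      rw [(hsyn.2.2 _ h1).2.2.1 j y]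
    · intro t ht y i
      have hNN : ∀ i, RDk (NN (x t) i) := fun i => RD_at (TC_RD (TC_NN htc hT 0 i)) ht
      have hmP : RDk fun k => mu i k * PP (x t) k := RD_at (TC_RD (TC_muPP htc hT 0 i)) ht
      have hPP : RDk (PP (x t)) := RD_at (TC_RD (TC_PP htc hT 0)) ht
      -- the time derivative
      have hder : HasDerivWithinAt (fun s => FS (fun k => x s k i) y) (FS (DT ν (x t) i) y)
          (Ici 0) t := by
        refine hsyn.2.1 (fun t k => x t k i) (fun t k => DT ν (x t) i k) (TC_RD (hT i 0))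
          (TC_RD (TC_DT htc hT ν 0 i)) ?_ t ht y
        intro s hs k
        have h1 := hx.ode s hs k
        have h2 := (((EuclideanSpace.proj (𝕜 := ℂ) i : E3 →L[ℂ] ℂ)).restrictScalars
          ℝ).hasFDerivAt.comp_hasDerivWithinAt s h1
        have h3 := Pk_apply hsyn ν (hR s hs) i k
        rw [← h3]
        exact h2
      have hder' : HasDerivWithinAt (fun s => (FS (fun k => x s k i) y).re)
          (FS (DT ν (x t) i) y).re (Ici 0) t :=
        Complex.reCLM.hasFDerivAt.comp_hasDerivWithinAt t hder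
      have e1 : derivWithin (fun s => (FS (fun k => x s k i) y).re) (Ici 0) t
          = (FS (DT ν (x t) i) y).re := hder'.derivWithin (uniqueDiffOn_Ici 0 t ht)
      -- the nonlinear term
      have e2 : ∑ j, (FS (fun k => x t k j) y).re * pd j (fun y => (FS (fun k => x t k i) y).re) y
          = (FS (NN (x t) i) y).re := by
        have h1 : ∀ j, (FS (fun k => x t k j) y).re
            * pd j (fun y => (FS (fun k => x t k i) y).re) y
            = (FS (fun k => ∑' l : K3, x t l j * (mu j (k - l) * x t (k - l) i)) y).re := by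
          intro j
          have hd : RDk fun k => mu j k * x t k i := RDk_mul (hR t ht i) (norm_mu j)
          rw [pd_FS hsyn (hR t ht i)]
          have h2 := (hsyn.2.2 _ (hR t ht j)).2.2.2.2 _ hd y
          rw [← h2, Complex.mul_re, FS_symm (γ := fun k => x t k j), zero_mul, sub_zero]
          intro k
          rw [hx.sym t ht k]
          rfl
        have h3 : ∀ j, RDk (fun k => ∑' l : K3, x t l j * (mu j (k - l) * x t (k - l) i)) :=
          fun j => RD_at (TC_RD (TC_conv htc hT 0 i j)) ht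
        rw [Finset.sum_congr rfl fun j _ => h1 j, ← Complex.re_sum, ← FS_sum3 hsyn _ h3]
        rfl
      -- the Laplacian
      have e3 : ∑ j, pd j (pd j fun y => (FS (fun k => x t k i) y).re) y
          = (FS (fun k => ∑ j, mu j k * (mu j k * x t k i)) y).re := by
        have h1 : ∀ j, RDk fun k => mu j k * x t k i := fun j => RDk_mul (hR t ht i) (norm_mu j)
        have h2 : ∀ j, RDk fun k => mu j k * (mu j k * x t k i) :=
          fun j => RDk_mul (h1 j) (norm_mu j)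
        rw [FS_sum3 hsyn _ h2, Complex.re_sum]
        refine Finset.sum_congr rfl fun j _ => ?_
        have h3 : pd j (fun y => (FS (fun k => x t k i) y).re)
            = fun y => (FS (fun k => mu j k * x t k i) y).re :=
          funext fun z => pd_FS hsyn (hR t ht i) j z
        rw [h3, pd_FS hsyn (h1 j)]
      have e4 : ∀ k, ∑ j, mu j k * (mu j k * x t k i)
          = (-(4 * Real.pi ^ 2 * (W785.DF.sq k : ℂ))) * x t k i := by
        intro k
        unfold mu W785.DF.sq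
        push_cast
        rw [Fin.sum_univ_three, Fin.sum_univ_three]
        linear_combination (4 * Real.pi ^ 2 * ((k 0 : ℂ) ^ 2 + (k 1 : ℂ) ^ 2 + (k 2 : ℂ) ^ 2)
          * x t k i) * Complex.I_sq
      have e5 : pd i (fun y => (FS (PP (x t)) y).re) y = (FS (fun k => mu i k * PP (x t) k) y).re :=
        pd_FS hsyn hPP i y
      -- the equation
      have h6 : RDk fun k => -(lam ν k) * x t k i := RDk_mul (hR t ht i) (norm_lam ν)
      have h7 : RDk fun k => (-1) * NN (x t) i k := RD_at (TC_RD (TC_neg htc 0 _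
        (TC_NN htc hT 0 i))) ht
      have h8 : RDk fun k => (-1) * (mu i k * PP (x t) k) := RD_at (TC_RD (TC_neg htc 0 _
        (TC_muPP htc hT 0 i))) ht
      have e6 : FS (DT ν (x t) i) y = FS (fun k => -(lam ν k) * x t k i) y
          + ((-1) * FS (NN (x t) i) y + (-1) * FS (fun k => mu i k * PP (x t) k) y) := by
        rw [← FS_mul_left, ← FS_mul_left, ← FS_add hsyn h7 h8, ← FS_add hsyn h6 (RDk_add h7 h8)]
        rfl
      have e7 : FS (fun k => -(lam ν k) * x t k i) y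
          = (ν : ℂ) * FS (fun k => ∑ j, mu j k * (mu j k * x t k i)) y := by
        rw [← FS_mul_left]
        congr 1
        funext k
        rw [e4, lam]
        push_cast
        ring
      show derivWithin (fun s => (FS (fun k => x s k i) y).re) (Ici 0) t
        + ∑ j, (FS (fun k => x t k j) y).re * pd j (fun y => (FS (fun k => x t k i) y).re) y
        = ν * ∑ j, pd j (pd j fun y => (FS (fun k => x t k i) y).re) y
          - pd i (fun y => (FS (PP (x t)) y).re) y + 0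
      rw [e1, e2, e3, e5, e6, e7]
      simp only [Complex.add_re, Complex.mul_re, Complex.ofReal_re, Complex.ofReal_im,
        Complex.neg_re, Complex.one_re, Complex.neg_im, Complex.one_im]
      ring
    · intro t ht y
      have h1 : ∀ i, RDk fun k => mu i k * x t k i := fun i => RDk_mul (hR t ht i) (norm_mu i)
      show ∑ i, pd i (fun y => (FS (fun k => x t k i) y).re) y = 0
      rw [Finset.sum_congr rfl fun i _ => pd_FS hsyn (hR t ht i) i y, ← Complex.re_sum,
        ← FS_sum3 hsyn (fun i k => mu i k * x t k i) h1]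
      have h2 : (fun k => ∑ i, mu i k * x t k i) = fun _ => 0 := by
        funext k
        have h3 := hx.div t ht k
        unfold dk at h3
        unfold mu
        have h4 : ∑ i, 2 * Real.pi * Complex.I * (k i : ℂ) * x t k i
            = 2 * Real.pi * Complex.I * ∑ i, (k i : ℂ) * x t k i := by
          rw [Finset.mul_sum]
          exact Finset.sum_congr rfl fun i _ => by ring
        rw [h4, h3, mul_zero]
      rw [h2]
      simp [FS]
    · funext y i
      show (FS (fun k => x 0 k i) y).re = tp F (fun k => b0 k i) y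
      rw [hx.init, FS, tp, tsum_eq_sum (s := F)]
      intro k hk
      rw [hb.supp k hk]
      simp
  · intro t ht B hB y i
    show |(FS (fun k => x t k i) y).re| ≤ B
    refine (Complex.abs_re_le_norm _).trans ?_
    unfold FS
    have h1 : Summable fun k => ‖x t k i * ee k y‖ := (summ hsyn (hR t ht i) y).norm
    refine (norm_tsum_le_tsum_norm h1).trans ?_
    refine h1.tsum_le_of_sum_le fun G => ?_
    refine (Finset.sum_le_sum fun k _ => ?_).trans (hB G)
    rw [norm_mul, norm_ee, mul_one]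
    exact PiLp.norm_apply_le (x t k) i

end Pool.Agent.W978.DD.Recon
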